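import Pool.Agent.N879.GD.Stm

set_option autoImplicit false

/-!
Project GD: `S_LEW → S_PL → S_CRU → S_DIL1` (mean square over one dilation).
-/

namespace Pool.Agent.J4H55.GD

open Complex Filter Topology MeasureTheory Set
open scoped ContDiff ENNReal
open Pool.Agent.Y969.GP (ff)
open Pool.Agent.N879.GD

noncomputable section

/-- the cutoff: equal to `1` on `[1/A, 2A]`, supported in `[1/(2A), 2A + 1/(2A)]` -/
def bump (A : ℝ) (hA : 1 ≤ A) : ContDiffBump ((A⁻¹ + 2 * A) / 2) where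
  rIn := (2 * A - A⁻¹) / 2
  rOut := (2 * A - A⁻¹) / 2 + A⁻¹ / 2
  rIn_pos := by
    have : A⁻¹ ≤ 1 := inv_le_one_of_one_le₀ hA
    linarith
  rIn_lt_rOut := by
    have : 0 < A⁻¹ := by positivity
    linarith

lemma bump_one (A : ℝ) (hA : 1 ≤ A) {x : ℝ} (h1 : A⁻¹ ≤ x) (h2 : x ≤ 2 * A) : bump A hA x = 1 := by
  refine (bump A hA).one_of_mem_closedBall ?_
  rw [Real.closedBall_eq_Icc]
  simp only [bump]
  constructor <;> linarith

lemma bump_tsupport (A : ℝ) (hA : 1 ≤ A) :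
    tsupport (bump A hA) = Icc (A⁻¹ / 2) (2 * A + A⁻¹ / 2) := by
  rw [(bump A hA).tsupport_eq, Real.closedBall_eq_Icc]
  simp only [bump]
  congr 1 <;> ring

lemma bump_zero (A : ℝ) (hA : 1 ≤ A) {x : ℝ} (h : x ∉ Icc (A⁻¹ / 2) (2 * A + A⁻¹ / 2)) :
    bump A hA x = 0 := by
  rw [← bump_tsupport A hA] at h
  exact image_eq_zero_of_notMem_tsupport h

/-- the cut-off remainder -/
def Gf (w : ℝ → ℝ) (T u : ℝ) : ℂ := ((w (u / T) * (ff u - D0 u) : ℝ) : ℂ)

lemma Gf_cont (w : ℝ → ℝ) (T : ℝ) (hw : Continuous w) (hs : tsupport w ⊆ Ioi 0)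
    (hff : Continuous ff) : Continuous (Gf w T) := by
  unfold Gf
  refine Complex.continuous_ofReal.comp ?_
  rw [continuous_iff_continuousAt]
  intro u
  by_cases hu : u = 0
  · subst hu
    have h0 : (0 : ℝ) ∉ tsupport w := fun h => absurd (hs h) (by simp)
    have h1 : w =ᶠ[𝓝 0] 0 := notMem_tsupport_iff_eventuallyEq.mp h0
    have h2 : Tendsto (fun u : ℝ => u / T) (𝓝 0) (𝓝 0) := by
      have : Continuous fun u : ℝ => u / T := by fun_prop
      simpa using this.tendsto 0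
    have h3 : (fun u : ℝ => w (u / T) * (ff u - D0 u)) =ᶠ[𝓝 0] fun _ => 0 := by
      filter_upwards [h2.eventually h1] with u hu
      simp only [Pi.zero_apply] at hu
      rw [hu, zero_mul]
    exact (continuousAt_const.congr h3.symm)
  · refine ContinuousAt.mul (by fun_prop) (hff.continuousAt.sub ?_)
    unfold D0
    refine ContinuousAt.add (ContinuousAt.log (by fun_prop) ?_) continuousAt_const
    have : (0 : ℝ) < 2 * Real.pi := by positivity
    exact div_ne_zero hu this.ne'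

/-- DIL1 -/
theorem t_DIL1 (hLEW : S_LEW) (hPL : S_PL) (hCRU : S_CRU) : S_DIL1 := by
  obtain ⟨δ, hδ, hδ1, hw⟩ := hLEW
  obtain ⟨-, -, -, hff, -, -⟩ := hCRU
  refine ⟨δ, hδ, hδ1, fun A hA => ?_⟩
  have hA0 : 0 < A := by linarith
  have hAi : 0 < A⁻¹ := by positivity
  have hAi1 : A⁻¹ ≤ 1 := inv_le_one_of_one_le₀ hA
  have hsupp : tsupport (bump A hA) ⊆ Ioi 0 := by
    rw [bump_tsupport]
    intro x hx
    have := hx.1
    simp only [mem_Ioi]
    linarith
  obtain ⟨C, T₀, hC, hT₀, hmain⟩ := hw (bump A hA) (bump A hA).contDiff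
    (bump A hA).hasCompactSupport hsupp
  refine ⟨2 * A * C ^ 2, T₀, by positivity, hT₀, fun T F hT hF => ?_⟩
  have hTp : 0 < T := by linarith
  set N : ℝ≥0∞ := ∫⁻ t in Icc T (2 * T), ‖F t‖ₑ ^ 2 with hN
  have hCT : 0 < 2 * A * C ^ 2 * T ^ (1 - 2 * δ) := by positivity
  by_cases hNt : N = ⊤
  · rw [hNt, ENNReal.mul_top]
    · exact le_top
    · simpa using hCT
  set G : ℝ → ℂ := Gf (bump A hA) T with hG
  set F1 : ℝ → ℂ := fun t => (Icc T (2 * T)).indicator (fun t => F t * (t : ℂ)) t with hF1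
  have hF1m : Measurable F1 := (hF.mul (by fun_prop)).indicator measurableSet_Icc
  have hnorm : ∀ t ∈ Icc T (2 * T), ‖F1 t‖ₑ ^ 2 = ‖F t‖ₑ ^ 2 * ENNReal.ofReal (t ^ 2) := by
    intro t ht
    have h0 : 0 ≤ t := le_trans hTp.le ht.1
    simp only [hF1, indicator_of_mem ht, enorm_mul, mul_pow]
    congr 1
    rw [ENNReal.ofReal_pow h0, ← ofReal_norm]
    simp [abs_of_nonneg h0]
  have hb1 : ∫⁻ t, ‖F1 t‖ₑ ^ 2 ≠ ⊤ := by
    have e : ∫⁻ t, ‖F1 t‖ₑ ^ 2 = ∫⁻ t in Icc T (2 * T), ‖F1 t‖ₑ ^ 2 := by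
      rw [← lintegral_indicator measurableSet_Icc]
      refine lintegral_congr fun t => ?_
      by_cases ht : t ∈ Icc T (2 * T)
      · rw [indicator_of_mem ht]
      · rw [indicator_of_notMem ht]
        simp [hF1, indicator_of_notMem ht]
    rw [e, setLIntegral_congr_fun measurableSet_Icc hnorm]
    have h2 : ∫⁻ t in Icc T (2 * T), ‖F t‖ₑ ^ 2 * ENNReal.ofReal (t ^ 2) ≤
        ∫⁻ t in Icc T (2 * T), ‖F t‖ₑ ^ 2 * ENNReal.ofReal ((2 * T) ^ 2) := by
      refine setLIntegral_mono' measurableSet_Icc fun t ht => ?_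
      gcongr
      · exact le_trans hTp.le ht.1
      · exact ht.2
    rw [lintegral_mul_const'' _ (by fun_prop)] at h2
    exact ne_top_of_le_ne_top (ENNReal.mul_ne_top hNt ENNReal.ofReal_ne_top) h2
  have hGc : Continuous G := Gf_cont _ T (bump A hA).continuous hsupp hff
  have hab : T * (A⁻¹ / 2) ≤ T * (2 * A + A⁻¹ / 2) := by
    have : A⁻¹ / 2 ≤ 2 * A + A⁻¹ / 2 := by linarith
    exact mul_le_mul_of_nonneg_left this hTp.le
  have hGz : ∀ t, t ∉ Icc (T * (A⁻¹ / 2)) (T * (2 * A + A⁻¹ / 2)) → G t = 0 := by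
    intro t ht
    have : bump A hA (t / T) = 0 := by
      refine bump_zero A hA fun h => ht ⟨?_, ?_⟩
      · have := h.1
        rw [le_div_iff₀ hTp] at this
        linarith
      · have := h.2
        rw [div_le_iff₀ hTp] at this
        linarith
    simp [hG, Gf, this]
  have hFz : ∀ t, t ∉ Icc (T * (A⁻¹ / 2)) (T * (2 * A + A⁻¹ / 2)) → F1 t = 0 := by
    intro t ht
    refine indicator_of_notMem (fun h => ht ⟨?_, ?_⟩) _
    · have h1 := h.1
      have : T * (A⁻¹ / 2) ≤ T * 1 := mul_le_mul_of_nonneg_left (by linarith) hTp.le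
      linarith
    · have h1 := h.2
      have : T * 2 ≤ T * (2 * A + A⁻¹ / 2) := mul_le_mul_of_nonneg_left (by linarith) hTp.le
      linarith
  have hB0 : 0 ≤ C * T ^ (-δ) := by positivity
  have hB : ∀ τ : ℝ, ‖∫ u in Ioi (0 : ℝ), G u / u * cexp (-(I * ((τ * Real.log u : ℝ) : ℂ)))‖ ≤
      C * T ^ (-δ) := by
    intro τ
    have h1 := hmain T τ hT
    have h2 : ∀ u : ℝ, G u / u = ((bump A hA (u / T) * (ff u - D0 u) / u : ℝ) : ℂ) := by
      intro u
      simp [hG, Gf]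
    simp_rw [h2]
    exact h1
  have hpl := hPL F1 G (T * (A⁻¹ / 2)) (T * (2 * A + A⁻¹ / 2)) (C * T ^ (-δ)) (by positivity) hab
    hF1m hFz hb1 hGc hGz hB0 hB
  -- the inner integral
  have hin : ∀ l ∈ Icc A⁻¹ A, ∫ t in Ioi (0 : ℝ), F1 t * G (l * t) / t =
      ∫ t in Icc T (2 * T), F t * ((ff (l * t) - D0 (l * t) : ℝ) : ℂ) := by
    intro l hl
    have e1 : ∀ t : ℝ, F1 t * G (l * t) / t =
        (Icc T (2 * T)).indicator (fun t => F t * ((ff (l * t) - D0 (l * t) : ℝ) : ℂ)) t := by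
      intro t
      by_cases ht : t ∈ Icc T (2 * T)
      · have ht0 : 0 < t := lt_of_lt_of_le hTp ht.1
        have hl0 : 0 < l := lt_of_lt_of_le hAi hl.1
        have hw1 : bump A hA (l * t / T) = 1 := by
          refine bump_one A hA ?_ ?_
          · rw [le_div_iff₀ hTp]
            exact mul_le_mul hl.1 ht.1 hTp.le hl0.le
          · rw [div_le_iff₀ hTp]
            calc l * t ≤ A * (2 * T) := mul_le_mul hl.2 ht.2 ht0.le hA0.le
              _ = 2 * A * T := by ring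
        have ht0' : (t : ℂ) ≠ 0 := by exact_mod_cast ht0.ne'
        simp only [hF1, hG, Gf, indicator_of_mem ht, hw1, one_mul]
        field_simp
      · simp only [hF1, indicator_of_notMem ht, zero_mul, zero_div]
    simp_rw [e1]
    rw [setIntegral_indicator measurableSet_Icc]
    congr 2
    ext t
    simp only [mem_inter_iff, mem_Ioi, mem_Icc]
    constructor
    · exact fun h => h.2
    · exact fun h => ⟨lt_of_lt_of_le hTp h.1, h⟩
  -- the left side
  have hleft : ∫⁻ l in Icc A⁻¹ A,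
      ‖∫ t in Icc T (2 * T), F t * ((ff (l * t) - D0 (l * t) : ℝ) : ℂ)‖ₑ ^ 2 ≤
      ENNReal.ofReal A * ∫⁻ l in Ioi (0 : ℝ),
        ‖∫ t in Ioi (0 : ℝ), F1 t * G (l * t) / t‖ₑ ^ 2 * ENNReal.ofReal l⁻¹ := by
    have hsub : Icc A⁻¹ A ⊆ Ioi (0 : ℝ) := fun l hl => lt_of_lt_of_le hAi hl.1
    have h1 : ∫⁻ l in Icc A⁻¹ A, ‖∫ t in Ioi (0 : ℝ), F1 t * G (l * t) / t‖ₑ ^ 2 *
        ENNReal.ofReal l⁻¹ ≤ ∫⁻ l in Ioi (0 : ℝ),
        ‖∫ t in Ioi (0 : ℝ), F1 t * G (l * t) / t‖ₑ ^ 2 * ENNReal.ofReal l⁻¹ :=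
      lintegral_mono_set hsub
    refine le_trans ?_ (mul_le_mul le_rfl h1 zero_le zero_le)
    rw [← lintegral_const_mul' _ _ ENNReal.ofReal_ne_top]
    refine setLIntegral_mono' measurableSet_Icc fun l hl => ?_
    rw [← hin l hl]
    have hl0 : 0 < l := hsub hl
    have h2 : 1 ≤ ENNReal.ofReal A * ENNReal.ofReal l⁻¹ := by
      rw [← ENNReal.ofReal_mul hA0.le, ← ENNReal.ofReal_one]
      refine ENNReal.ofReal_le_ofReal ?_
      rw [← div_eq_mul_inv, one_le_div hl0]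
      exact hl.2
    calc ‖∫ t in Ioi (0 : ℝ), F1 t * G (l * t) / t‖ₑ ^ 2
        = 1 * ‖∫ t in Ioi (0 : ℝ), F1 t * G (l * t) / t‖ₑ ^ 2 := by rw [one_mul]
      _ ≤ (ENNReal.ofReal A * ENNReal.ofReal l⁻¹) *
            ‖∫ t in Ioi (0 : ℝ), F1 t * G (l * t) / t‖ₑ ^ 2 := mul_le_mul h2 le_rfl zero_le zero_le
      _ = _ := by ring
  -- the right side
  have hright : ∫⁻ t in Ioi (0 : ℝ), ‖F1 t‖ₑ ^ 2 * ENNReal.ofReal t⁻¹ ≤
      ENNReal.ofReal (2 * T) * N := by
    have e1 : ∫⁻ t in Ioi (0 : ℝ), ‖F1 t‖ₑ ^ 2 * ENNReal.ofReal t⁻¹ ≤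
        ∫⁻ t, (Icc T (2 * T)).indicator (fun t => ENNReal.ofReal (2 * T) * ‖F t‖ₑ ^ 2) t := by
      refine le_trans (setLIntegral_le_lintegral _ _) (lintegral_mono fun t => ?_)
      by_cases ht : t ∈ Icc T (2 * T)
      · have ht0 : 0 < t := lt_of_lt_of_le hTp ht.1
        simp only
        rw [indicator_of_mem ht, hnorm t ht, mul_assoc, ← ENNReal.ofReal_mul (by positivity), mul_comm]
        have : t ^ 2 * t⁻¹ = t := by field_simp
        rw [this]
        exact mul_le_mul (ENNReal.ofReal_le_ofReal ht.2) le_rfl zero_le zero_le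
      · simp only
        rw [indicator_of_notMem ht]
        simp [hF1, indicator_of_notMem ht]
    refine e1.trans ?_
    rw [lintegral_indicator measurableSet_Icc, lintegral_const_mul' _ _ ENNReal.ofReal_ne_top]
  refine hleft.trans ?_
  refine (mul_le_mul le_rfl (hpl.trans (mul_le_mul le_rfl hright zero_le zero_le)) zero_le
    zero_le).trans (le_of_eq ?_)
  rw [← mul_assoc, ← mul_assoc, ← ENNReal.ofReal_mul hA0.le, ← ENNReal.ofReal_mul (by positivity)]
  congr 2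
  rw [mul_pow, ← Real.rpow_natCast (T ^ (-δ)) 2, ← Real.rpow_mul hTp.le]
  have h1 : T ^ (1 - 2 * δ) = T * T ^ (-δ * ((2 : ℕ) : ℝ)) := by
    nth_rewrite 2 [← Real.rpow_one T]
    rw [← Real.rpow_add hTp]
    congr 1
    push_cast
    ring
  rw [h1]
  ring

end

end Pool.Agent.J4H55.GD
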