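import Pool.Agent.N879.GD.Stm

set_option autoImplicit false

/-!
Project GD: `S_LEM → S_LEW` (the Mellin transform of `ff - D0` with smooth compactly supported
weights), by Fourier inversion of `w(e^s) e^(-as) e^(e^s)`.
-/

namespace Pool.Agent.J4H55.GD

open Complex Filter Topology MeasureTheory Set
open scoped FourierTransform ContDiff
open Pool.Agent.Y969.GP (ff)
open Pool.Agent.N879.GD

noncomputable section

/-- Fourier inversion for a smooth function with compact support -/
lemma four (f : ℝ → ℂ) (h : ContDiff ℝ ∞ f) (hc : HasCompactSupport f) :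
    ∃ g : ℝ → ℂ, Integrable g ∧
      ∀ s : ℝ, f s = ∫ x : ℝ, cexp (I * ((2 * Real.pi * x * s : ℝ) : ℂ)) * g x := by
  set F : SchwartzMap ℝ ℂ := hc.toSchwartzMap h with hF
  have hFf : (F : ℝ → ℂ) = f := by
    ext s; simp [hF]
  have hi : Integrable (𝓕 f) := by
    have h1 := (𝓕 F).integrable (μ := volume)
    rw [SchwartzMap.fourier_coe, hFf] at h1
    exact h1
  refine ⟨𝓕 f, hi, fun s => ?_⟩
  have h2 : 𝓕⁻ (𝓕 f) = f :=
    Continuous.fourierInv_fourier_eq h.continuous (h.continuous.integrable_of_hasCompactSupport hc) hi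
  have h3 := congrFun h2 s
  rw [Real.fourierInv_eq'] at h3
  rw [← h3]
  refine integral_congr_ae (Eventually.of_forall fun x => ?_)
  simp only [smul_eq_mul]
  congr 2
  simp only [RCLike.inner_apply, conj_trivial]
  push_cast
  ring

/-- the transformed weight -/
def psi (a : ℝ) (w : ℝ → ℝ) (s : ℝ) : ℂ :=
  ((w (Real.exp s) * Real.exp (-(a * s)) * Real.exp (Real.exp s) : ℝ) : ℂ)

lemma psi_smooth (a : ℝ) (w : ℝ → ℝ) (h : ContDiff ℝ (⊤ : ℕ∞) w) : ContDiff ℝ ∞ (psi a w) := by
  unfold psi
  refine Complex.ofRealCLM.contDiff.comp ?_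
  have he : ContDiff ℝ ∞ Real.exp := Real.contDiff_exp
  have h1 : ContDiff ℝ ∞ (fun s : ℝ => w (Real.exp s)) := h.comp he
  have h2 : ContDiff ℝ ∞ (fun s : ℝ => Real.exp (-(a * s))) :=
    he.comp ((contDiff_const.mul contDiff_id).neg)
  have h3 : ContDiff ℝ ∞ (fun s : ℝ => Real.exp (Real.exp s)) := he.comp he
  exact (h1.mul h2).mul h3

lemma psi_supp (a : ℝ) (w : ℝ → ℝ) (hc : HasCompactSupport w) (hs : tsupport w ⊆ Ioi 0) :
    HasCompactSupport (psi a w) := by
  have hK : IsCompact (Real.log '' (tsupport w)) := by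
    refine hc.isCompact.image_of_continuousOn ?_
    exact Real.continuousOn_log.mono fun x hx => (ne_of_gt (hs hx))
  refine HasCompactSupport.intro hK fun s hs' => ?_
  have : w (Real.exp s) = 0 := by
    by_contra hne
    refine hs' ⟨Real.exp s, subset_tsupport w hne, Real.log_exp s⟩
  simp [psi, this]

/-- LEW -/
theorem t_LEW' (hL : S_LEM) : S_LEW := by
  obtain ⟨a, δ, ha, hδ, hδ1, C, T₀, hC, hT₀, hmain⟩ := hL
  refine ⟨δ, hδ, hδ1, fun w hw hwc hws => ?_⟩
  obtain ⟨g, hg, hgf⟩ := four (psi a w) (psi_smooth a w hw) (psi_supp a w hwc hws)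
  refine ⟨C * ((∫ x, ‖g x‖) + 1), T₀, ?_, hT₀, fun T τ hT => ?_⟩
  · have : 0 ≤ ∫ x, ‖g x‖ := integral_nonneg fun x => norm_nonneg _
    positivity
  obtain ⟨hint, hb⟩ := hmain T hT
  have hTpos : 0 < T := by linarith
  set G : ℝ → ℝ := fun u => W a T u * (ff u - D0 u) with hG
  -- pointwise rewriting
  have hpt : ∀ u ∈ Ioi (0 : ℝ), ((w (u / T) * (ff u - D0 u) / u : ℝ) : ℂ) *
      cexp (-(I * ((τ * Real.log u : ℝ) : ℂ))) =
      ∫ x : ℝ, ((G u : ℝ) : ℂ) * (g x * cexp (I * ((2 * Real.pi * x * (Real.log u - Real.log T) -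
        τ * Real.log u : ℝ) : ℂ))) := by
    intro u hu
    have hu0 : (0 : ℝ) < u := hu
    have h1 := hgf (Real.log (u / T))
    have h2 : psi a w (Real.log (u / T)) =
        ((w (u / T) * (u / T) ^ (-a) * Real.exp (u / T) : ℝ) : ℂ) := by
      have hp : 0 < u / T := by positivity
      unfold psi
      rw [Real.exp_log hp, Real.rpow_def_of_pos hp]
      congr 3
      ring_nf
    rw [integral_const_mul]
    have h3 : ∫ x : ℝ, g x * cexp (I * ((2 * Real.pi * x * (Real.log u - Real.log T) -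
        τ * Real.log u : ℝ) : ℂ)) = psi a w (Real.log (u / T)) *
          cexp (-(I * ((τ * Real.log u : ℝ) : ℂ))) := by
      rw [h1, ← integral_mul_const]
      refine integral_congr_ae (Eventually.of_forall fun x => ?_)
      simp only
      have h5 : cexp (I * ((2 * Real.pi * x * (Real.log u - Real.log T) - τ * Real.log u : ℝ) : ℂ)) =
          cexp (I * ((2 * Real.pi * x * Real.log (u / T) : ℝ) : ℂ)) *
            cexp (-(I * ((τ * Real.log u : ℝ) : ℂ))) := by
        rw [← Complex.exp_add, Real.log_div hu0.ne' hTpos.ne']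
        congr 1
        push_cast
        ring
      rw [h5]
      ring
    rw [h3, h2, ← mul_assoc]
    congr 1
    rw [← Complex.ofReal_mul]
    congr 1
    have hp : 0 < u / T := by positivity
    simp only [hG, W]
    have e1 : (u / T) ^ a * (u / T) ^ (-a) = 1 := by
      rw [← Real.rpow_add hp, add_neg_cancel, Real.rpow_zero]
    have e2 : Real.exp (-(u / T)) * Real.exp (u / T) = 1 := by
      rw [← Real.exp_add, neg_add_cancel, Real.exp_zero]
    have : (u / T) ^ a * Real.exp (-(u / T)) / u * (ff u - D0 u) *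
        (w (u / T) * (u / T) ^ (-a) * Real.exp (u / T)) =
        ((u / T) ^ a * (u / T) ^ (-a)) * (Real.exp (-(u / T)) * Real.exp (u / T)) *
          (w (u / T) * (ff u - D0 u) / u) := by ring
    rw [this, e1, e2]; ring
  rw [setIntegral_congr_fun measurableSet_Ioi hpt]
  -- Fubini
  have hGi : Integrable (fun u => ((G u : ℝ) : ℂ)) (volume.restrict (Ioi 0)) := hint.ofReal
  have hprod : Integrable (Function.uncurry fun (u x : ℝ) => ((G u : ℝ) : ℂ) *
      (g x * cexp (I * ((2 * Real.pi * x * (Real.log u - Real.log T) -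
        τ * Real.log u : ℝ) : ℂ)))) ((volume.restrict (Ioi 0)).prod volume) := by
    have h1 := hGi.mul_prod hg
    have h2 : Integrable (fun p : ℝ × ℝ => cexp (I * ((2 * Real.pi * p.2 *
        (Real.log p.1 - Real.log T) - τ * Real.log p.1 : ℝ) : ℂ)) * (((G p.1 : ℝ) : ℂ) * g p.2))
        ((volume.restrict (Ioi 0)).prod volume) := by
      refine h1.bdd_mul (c := 1) ?_ ?_
      · refine Measurable.aestronglyMeasurable ?_
        fun_prop
      · refine Eventually.of_forall fun p => ?_
        rw [mul_comm, Complex.norm_exp_ofReal_mul_I]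
    refine h2.congr (Eventually.of_forall fun p => ?_)
    simp only [Function.uncurry]
    ring
  rw [integral_integral_swap hprod]
  -- the inner integrals
  have hin : ∀ x : ℝ, ‖∫ u in Ioi (0 : ℝ), ((G u : ℝ) : ℂ) *
      (g x * cexp (I * ((2 * Real.pi * x * (Real.log u - Real.log T) -
        τ * Real.log u : ℝ) : ℂ)))‖ ≤ ‖g x‖ * (C * T ^ (-δ)) := by
    intro x
    have e : ∀ u : ℝ, ((G u : ℝ) : ℂ) *
      (g x * cexp (I * ((2 * Real.pi * x * (Real.log u - Real.log T) -
        τ * Real.log u : ℝ) : ℂ))) = (g x * cexp (((-(2 * Real.pi * x * Real.log T) : ℝ) : ℂ) * I)) *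
        (((G u : ℝ) : ℂ) * cexp (-(I * (((τ - 2 * Real.pi * x) * Real.log u : ℝ) : ℂ)))) := by
      intro u
      have : cexp (I * ((2 * Real.pi * x * (Real.log u - Real.log T) -
        τ * Real.log u : ℝ) : ℂ)) = cexp (((-(2 * Real.pi * x * Real.log T) : ℝ) : ℂ) * I) *
          cexp (-(I * (((τ - 2 * Real.pi * x) * Real.log u : ℝ) : ℂ))) := by
        rw [← Complex.exp_add]
        congr 1
        push_cast
        ring
      rw [this]; ring
    simp_rw [e]
    rw [integral_const_mul, norm_mul, norm_mul, Complex.norm_exp_ofReal_mul_I, mul_one]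
    exact mul_le_mul_of_nonneg_left (hb (τ - 2 * Real.pi * x)) (norm_nonneg _)
  refine (norm_integral_le_integral_norm _).trans ?_
  have h4 : ∫ x, ‖∫ u in Ioi (0 : ℝ), ((G u : ℝ) : ℂ) *
      (g x * cexp (I * ((2 * Real.pi * x * (Real.log u - Real.log T) -
        τ * Real.log u : ℝ) : ℂ)))‖ ≤ ∫ x, ‖g x‖ * (C * T ^ (-δ)) := by
    refine integral_mono_of_nonneg (Eventually.of_forall fun x => norm_nonneg _)
      (hg.norm.mul_const _) (Eventually.of_forall hin)
  refine h4.trans ?_
  rw [integral_mul_const]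
  have hTd : 0 < T ^ (-δ) := Real.rpow_pos_of_pos hTpos _
  nlinarith [mul_pos hC hTd]

theorem t_LEW (hL : S_LEM) (_ : S_CRU) : S_LEW := t_LEW' hL

end

end Pool.Agent.J4H55.GD
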